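import Pool.Agent.Helper92.LW.Asy

/-!
# WC (MP_fb29e9_nt, AlmostEverySmoothOval v4): the limit law of the error at the worst centre. Definitions
-/

open MeasureTheory Real Set Filter Topology

set_option autoImplicit false

namespace Pool.Agent.Helper22.WC

open Pool.Agent.Helper22.AE
open Pool.Agent.Helper22.AC (cntc)

/-- the largest error over all centres -/
noncomputable def SupE (H : ℝ → ℝ) (R : ℝ) : ℝ := ⨆ c : ℝ × ℝ, |cntc H c R - area H * R ^ 2|

/-- the largest error over the rational centres -/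
noncomputable def SupQ (H : ℝ → ℝ) (R : ℝ) : ℝ := ⨆ c : ℚ × ℚ, |cntc H ((c.1 : ℝ), (c.2 : ℝ)) R - area H * R ^ 2|

/-- the mean over `[X, 2X]` of `φ` of the normalized largest error converges -/
def LimS (H : ℝ → ℝ) (φ : ℝ → ℝ) : Prop :=
  ∃ m : ℝ, ∀ ε : ℝ, 0 < ε → ∃ X₀ : ℝ, 1 ≤ X₀ ∧ ∀ X : ℝ, X₀ ≤ X →
    |X⁻¹ * (∫ R in Icc X (2 * X), φ (SupE H R / sqrt R)) - m| ≤ ε

end Pool.Agent.Helper22.WC
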