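import Pool.Agent.Helper92.LW.Law
import Pool.Agent.Helper60.WC.SupE

/-!
# WC-D2: the limit law at the worst centre from the tail
-/

open MeasureTheory Real Set Filter Topology

set_option autoImplicit false

namespace Pool.Agent.Helper22.WC

open Pool.Agent.Helper22.AE
open Pool.Agent.Helper22.AC (cntc)
open Pool.Agent.Helper93.EX (Mx)
open Pool.Agent.Helper92.LW (BM mean_diff mean_const lim_of_approx)
open Pool.Agent.Helper60.WC (bdd supE_nonneg le_supE supE_facts)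

/-- the difference of two suprema -/
theorem sup_sub_le {f g : ℝ × ℝ → ℝ} (hf : BddAbove (range fun c => |f c|)) (hg : BddAbove (range fun c => |g c|)) {d : ℝ} (h : ∀ c, |f c - g c| ≤ d) :
    |(⨆ c, |f c|) - (⨆ c, |g c|)| ≤ d := by
  rw [abs_sub_le_iff]
  constructor
  · have h1 : (⨆ c, |f c|) ≤ (⨆ c, |g c|) + d := by
      refine ciSup_le fun c => ?_
      have h2 : |g c| ≤ ⨆ c, |g c| := le_ciSup hg c
      have h3 := h c
      have h4 := abs_sub_abs_le_abs_sub (f c) (g c)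
      linarith
    linarith
  · have h1 : (⨆ c, |g c|) ≤ (⨆ c, |f c|) + d := by
      refine ciSup_le fun c => ?_
      have h2 : |f c| ≤ ⨆ c, |f c| := le_ciSup hf c
      have h3 := h c
      have h4 := abs_sub_abs_le_abs_sub (g c) (f c)
      rw [abs_sub_comm] at h4
      linarith
    linarith

theorem law_of_S {H : ℝ → ℝ} (hH : ContDiff ℝ 2 H) (hp : Function.Periodic H (2 * π)) (hr : ∀ θ, 0 < H θ + deriv (deriv H) θ)
    (htail : ∀ η : ℝ, 0 < η → ∃ (n0 : ℕ) (X₀ : ℝ), 1 ≤ X₀ ∧ ∀ X : ℝ, X₀ ≤ X → ∃ V : ℝ → ℝ, IntegrableOn V (Icc X (2 * X)) ∧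
      (∀ R ∈ Icc X (2 * X), ∀ c : ℝ × ℝ, |cntc H c R - area H * R ^ 2 - sqrt R * Mx H (2 ^ n0) R c| ^ 2 ≤ V R) ∧ ∫ R in Icc X (2 * X), V R ≤ η * X ^ 2)
    (hmean : ∀ N : ℕ, ∀ φ : ℝ → ℝ, Continuous φ → (Continuous fun R : ℝ => ⨆ c : ℝ × ℝ, |Mx H N R c|) ∧ (∀ R : ℝ, BddAbove (range fun c : ℝ × ℝ => |Mx H N R c|)) ∧
      ∃ m : ℝ, ∀ ε : ℝ, 0 < ε → ∃ X₀ : ℝ, 1 ≤ X₀ ∧ ∀ X : ℝ, X₀ ≤ X → |X⁻¹ * (∫ R in Icc X (2 * X), φ (⨆ c : ℝ × ℝ, |Mx H N R c|)) - m| ≤ ε)
    {φ : ℝ → ℝ} (hφ : Continuous φ) (hc : HasCompactSupport φ) : LimS H φ := by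
  obtain ⟨f1, f2, f3, -⟩ := supE_facts hH hp hr
  obtain ⟨B, hB⟩ := hc.exists_bound_of_continuous hφ
  have hB0 : 0 ≤ B := (norm_nonneg _).trans (hB 0)
  have hu := hc.uniformContinuous_of_continuous hφ
  have key : ∃ m : ℝ, ∀ ε : ℝ, 0 < ε → ∃ X₀ : ℝ, 1 ≤ X₀ ∧ ∀ X : ℝ, X₀ ≤ X → ∀ _ : ℝ × ℝ,
      |X⁻¹ * (∫ R in Icc X (2 * X), φ (SupE H R / sqrt R)) - m| ≤ ε := by
    refine lim_of_approx (f := fun X _ => X⁻¹ * (∫ R in Icc X (2 * X), φ (SupE H R / sqrt R))) fun ε hε => ?_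
    rw [Metric.uniformContinuous_iff] at hu
    obtain ⟨δ, hδ, hu⟩ := hu (ε / 3) (by positivity)
    obtain ⟨η, hη⟩ : ∃ η : ℝ, η = ε * δ ^ 2 / (3 * (2 * B + 1)) := ⟨_, rfl⟩
    have hη0 : 0 < η := by rw [hη]; positivity
    obtain ⟨n0, X₁, hX₁, h1⟩ := htail η hη0
    obtain ⟨g1, g2, m, hm⟩ := hmean (2 ^ n0) φ hφ
    obtain ⟨X₂, hX₂, h2⟩ := hm (ε / 3) (by positivity)
    refine ⟨m, max X₁ X₂, hX₁.trans (le_max_left _ _), fun X hX c => ?_⟩
    have hXa : X₁ ≤ X := (le_max_left _ _).trans hX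
    have hXb : X₂ ≤ X := (le_max_right _ _).trans hX
    have hX1 : 1 ≤ X := hX₁.trans hXa
    have hX0 : 0 < X := by linarith
    obtain ⟨V, v1, v2, v3⟩ := h1 X hXa
    -- the functions
    have bu : BM X (fun R => SupE H R / sqrt R) := by
      obtain ⟨C, hC⟩ := f2 (2 * X)
      refine ⟨(f3.div Real.continuous_sqrt.measurable).aemeasurable, C, fun R hR => ?_⟩
      have hR1 : 1 ≤ R := hX1.trans hR.1
      have hs : 1 ≤ sqrt R := Real.one_le_sqrt.2 hR1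
      have hC1 := hC R ⟨hR1, hR.2⟩
      rw [abs_div, abs_of_nonneg hC1.1, abs_of_nonneg (by linarith : (0 : ℝ) ≤ sqrt R)]
      exact (div_le_self hC1.1 hs).trans hC1.2
    have bv : BM X (fun R => ⨆ c : ℝ × ℝ, |Mx H (2 ^ n0) R c|) := BM.cont g1.continuousOn
    have b1 := bu.comp hφ
    have b2 := bv.comp hφ
    have h3 := mean_diff hX1 b1 b2
    -- the pointwise bound
    have hpt : ∀ R ∈ Icc X (2 * X), |φ (SupE H R / sqrt R) - φ (⨆ c : ℝ × ℝ, |Mx H (2 ^ n0) R c|)| ≤ ε / 3 + 2 * B / δ ^ 2 / X * V R := by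
      intro R hR
      have hR0 : 0 < R := by linarith [hR.1]
      have hs : 0 < sqrt R := Real.sqrt_pos.2 hR0
      obtain ⟨y, hy⟩ : ∃ y : ℝ, y = SupE H R / sqrt R := ⟨_, rfl⟩
      obtain ⟨z, hz⟩ : ∃ z : ℝ, z = ⨆ c : ℝ × ℝ, |Mx H (2 ^ n0) R c| := ⟨_, rfl⟩
      have hV0 : 0 ≤ V R := (by positivity : (0 : ℝ) ≤ _).trans (v2 R hR (0, 0))
      have hyz : |y - z| ≤ sqrt (V R / R) := by
        have e1 : y = ⨆ c : ℝ × ℝ, |(cntc H c R - area H * R ^ 2) / sqrt R| := by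
          rw [hy]
          unfold SupE
          rw [div_eq_mul_inv, Real.iSup_mul_of_nonneg (inv_nonneg.2 hs.le)]
          refine iSup_congr fun c => ?_
          rw [abs_div, abs_of_pos hs, div_eq_mul_inv]
        rw [e1, hz]
        refine sup_sub_le ?_ (g2 R) fun c => ?_
        · obtain ⟨b, hb⟩ := f1 R
          refine ⟨b / sqrt R, ?_⟩
          rintro _ ⟨c, rfl⟩
          show |(cntc H c R - area H * R ^ 2) / sqrt R| ≤ b / sqrt R
          rw [abs_div, abs_of_pos hs]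
          exact div_le_div_of_nonneg_right (hb ⟨c, rfl⟩) hs.le
        · refine Real.le_sqrt_of_sq_le ?_
          have e2 : (cntc H c R - area H * R ^ 2) / sqrt R - Mx H (2 ^ n0) R c = (cntc H c R - area H * R ^ 2 - sqrt R * Mx H (2 ^ n0) R c) / sqrt R := by
            field_simp
          rw [e2, abs_div, div_pow, abs_of_pos hs, Real.sq_sqrt hR0.le]
          exact div_le_div_of_nonneg_right (v2 R hR c) hR0.le
      have hq : |y - z| ^ 2 ≤ V R / X := by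
        have h4 : |y - z| ^ 2 ≤ V R / R := by
          have h5 := pow_le_pow_left₀ (abs_nonneg _) hyz 2
          rwa [Real.sq_sqrt (by positivity)] at h5
        exact h4.trans (div_le_div_of_nonneg_left hV0 hX0 hR.1)
      rw [← hy, ← hz]
      have a1 := hB y
      have a2 := hB z
      rw [Real.norm_eq_abs] at a1 a2
      have hq0 : 0 ≤ 2 * B / δ ^ 2 / X * V R := by positivity
      rcases lt_or_ge (dist y z) δ with hd | hd
      · have := hu hd
        rw [Real.dist_eq] at this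
        linarith
      · rw [Real.dist_eq] at hd
        have a3 : |φ y - φ z| ≤ 2 * B := by
          have := abs_sub (φ y) (φ z)
          linarith
        have a4 : δ ^ 2 ≤ |y - z| ^ 2 := pow_le_pow_left₀ hδ.le hd 2
        have a5 : 2 * B ≤ 2 * B / δ ^ 2 / X * V R := by
          have e3 : 2 * B / δ ^ 2 / X * V R = 2 * B * (V R / X) / δ ^ 2 := by
            field_simp
          rw [e3, le_div_iff₀ (by positivity)]
          exact mul_le_mul_of_nonneg_left (a4.trans hq) (by positivity)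
        linarith
    have h4 : X⁻¹ * ∫ R in Icc X (2 * X), |φ (SupE H R / sqrt R) - φ (⨆ c : ℝ × ℝ, |Mx H (2 ^ n0) R c|)| ≤ ε / 3 + 2 * B / δ ^ 2 * η := by
      have hconst : IntegrableOn (fun _ : ℝ => ε / 3) (Icc X (2 * X)) := continuousOn_const.integrableOn_compact isCompact_Icc
      have hi := hconst.add (v1.const_mul (2 * B / δ ^ 2 / X))
      have h5 : ∫ R in Icc X (2 * X), |φ (SupE H R / sqrt R) - φ (⨆ c : ℝ × ℝ, |Mx H (2 ^ n0) R c|)| ≤ ∫ R in Icc X (2 * X), (ε / 3 + 2 * B / δ ^ 2 / X * V R) :=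
        setIntegral_mono_on (b1.sub b2).abs.int hi measurableSet_Icc hpt
      have e4 : ∫ R in Icc X (2 * X), (ε / 3 + 2 * B / δ ^ 2 / X * V R) = ε / 3 * X + 2 * B / δ ^ 2 / X * ∫ R in Icc X (2 * X), V R := by
        rw [integral_add hconst (v1.const_mul _), integral_const_mul, setIntegral_const, Real.volume_real_Icc_of_le (by linarith), smul_eq_mul]
        ring
      rw [e4] at h5
      have h6 : 2 * B / δ ^ 2 / X * ∫ R in Icc X (2 * X), V R ≤ 2 * B / δ ^ 2 / X * (η * X ^ 2) := mul_le_mul_of_nonneg_left v3 (by positivity)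
      calc X⁻¹ * ∫ R in Icc X (2 * X), |φ (SupE H R / sqrt R) - φ (⨆ c : ℝ × ℝ, |Mx H (2 ^ n0) R c|)|
          ≤ X⁻¹ * (ε / 3 * X + 2 * B / δ ^ 2 / X * (η * X ^ 2)) := mul_le_mul_of_nonneg_left (h5.trans (by linarith)) (by positivity)
        _ = ε / 3 + 2 * B / δ ^ 2 * η := by
          field_simp
    have h5 : 2 * B / δ ^ 2 * η ≤ ε / 3 := by
      rw [hη]
      have e : 2 * B / δ ^ 2 * (ε * δ ^ 2 / (3 * (2 * B + 1))) = ε / 3 * (2 * B / (2 * B + 1)) := by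
        field_simp
      rw [e]
      refine mul_le_of_le_one_right (by positivity) ?_
      rw [div_le_one (by positivity)]
      linarith
    have h6 := h2 X hXb
    have e : X⁻¹ * (∫ R in Icc X (2 * X), φ (SupE H R / sqrt R)) - m =
        (X⁻¹ * (∫ R in Icc X (2 * X), φ (SupE H R / sqrt R)) - X⁻¹ * (∫ R in Icc X (2 * X), φ (⨆ c : ℝ × ℝ, |Mx H (2 ^ n0) R c|))) +
        (X⁻¹ * (∫ R in Icc X (2 * X), φ (⨆ c : ℝ × ℝ, |Mx H (2 ^ n0) R c|)) - m) := by ring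
    show |X⁻¹ * (∫ R in Icc X (2 * X), φ (SupE H R / sqrt R)) - m| ≤ ε
    rw [e]
    refine (abs_add_le _ _).trans ?_
    have h7 := h3.trans h4
    linarith
  obtain ⟨m, hm⟩ := key
  refine ⟨m, fun ε hε => ?_⟩
  obtain ⟨X₀, hX₀, h⟩ := hm ε hε
  exact ⟨X₀, hX₀, fun X hX => h X hX (0, 0)⟩

end Pool.Agent.Helper22.WC
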