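import Pool.Agent.Helper22.WC.Fin
import Pool.Agent.Helper22.WC.LawS
import Pool.Agent.Helper99.WC.Sup
import Pool.Agent.Helper68.WC.SerLaw
import Pool.Agent.Helper35.WCS.RatS
import Pool.Agent.Helper92.WC.Fin

/-!
# WC: the limit law at the worst centre, final form
-/

open MeasureTheory Real Set Filter Topology unitInterval

set_option autoImplicit false

namespace Pool.Agent.Helper22.WC

open Pool.Agent.Helper22.AE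
open Pool.Agent.Helper22.AC (cntc)
open Pool.Agent.Helper60.AD
open Pool.Agent.Helper92.LW (fjk)

/-- the finite theorem -/
theorem fin_law_S : ∃ L₀ : ℕ, ∀ {L : ℕ}, L₀ ≤ L → ∀ {H₀ : ℝ → ℝ}, ContDiff ℝ 2 H₀ → Function.Periodic H₀ (2 * π) →
    ∀ᵐ w : (Fin L → ℝ) × (Fin L → ℝ), (∀ θ, 0 < Hw H₀ w θ + deriv (deriv (Hw H₀ w)) θ) →
      ∀ φ : ℝ → ℝ, Continuous φ → HasCompactSupport φ → LimS (Hw H₀ w) φ :=
  fin_law_S_of (@fun _ hH hp hr htail hmean _ hφ hc => law_of_S hH hp hr htail hmean hφ hc) (fun H N _ hφ => Pool.Agent.Helper99.WC.sup_mean H N hφ)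

/-- the series -/
theorem ser_law_S {H₀ : ℝ → ℝ} (h0 : ContDiff ℝ 2 H₀) (hp : Function.Periodic H₀ (2 * π)) {s : ℕ → ℝ}
    (hs : Summable (fun l : ℕ => (l : ℝ) ^ 2 * |s l|)) (hs0 : ∀ l, s l ≠ 0) :
    ∀ᵐ x ∂(Measure.infinitePi fun _ : ℕ => (volume : Measure (I × I))),
      (∀ θ, 0 < Hx H₀ s x θ + deriv (deriv (Hx H₀ s x)) θ) → ∀ j K : ℕ, LimS (Hx H₀ s x) (fjk j K) :=
  Pool.Agent.Helper68.WC.ser_law_S_of (@fun _ hH hp hrho _ hφ => Pool.Agent.Helper35.WCS.rat_limS hH hp hrho hφ)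
    (@fun _ h0 hp _ hs _ hX _ hφ => Pool.Agent.Helper35.WCS.lim_measS h0 hp hs hX hφ) fin_law_S h0 hp hs hs0

/-- all properties -/
def PM3 (H : ℝ → ℝ) : Prop := Pool.Agent.Helper92.LW.PM2 H ∧ ∀ j K : ℕ, LimS H (fjk j K)

theorem main_ser_PM3 {H₀ : ℝ → ℝ} (h0 : ContDiff ℝ 2 H₀) (hp : Function.Periodic H₀ (2 * π)) {s : ℕ → ℝ}
    (hs : Summable (fun l : ℕ => (l : ℝ) ^ 2 * |s l|)) (hs0 : ∀ l, s l ≠ 0) :
    ∀ᵐ x ∂(Measure.infinitePi fun _ : ℕ => (volume : Measure (I × I))),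
      (∀ θ, 0 < Hx H₀ s x θ + deriv (deriv (Hx H₀ s x)) θ) → PM3 (Hx H₀ s x) := by
  filter_upwards [Pool.Agent.Helper92.LW.main_ser_PM2 h0 hp hs hs0, ser_law_S h0 hp hs hs0] with x h1 h2
  exact fun hov => ⟨h1 hov, h2 hov⟩

/-- the asymptotic formula at the worst centre -/
theorem PM3.asymp {H : ℝ → ℝ} (hP : PM3 H) (hH : ContDiff ℝ 2 H) (hp : Function.Periodic H (2 * π)) (hr : ∀ θ, 0 < H θ + deriv (deriv H) θ) {p : ℝ} (hp0 : 0 < p) :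
    ∃ M : ℝ, 0 < M ∧ ∀ d : ℝ, 0 < d → ∃ X₀ : ℝ, 1 ≤ X₀ ∧ ∀ X : ℝ, X₀ ≤ X →
      ∫⁻ R in Icc 1 X, ⨆ c : ℝ × ℝ, ENNReal.ofReal (|cntc H c R - area H * R ^ 2| ^ p) ≠ ⊤ ∧
      |(∫⁻ R in Icc 1 X, ⨆ c : ℝ × ℝ, ENNReal.ofReal (|cntc H c R - area H * R ^ 2| ^ p)).toReal / X ^ (1 + p / 2) - M| ≤ d :=
  Pool.Agent.Helper92.WC.asymp_S_fin hH hp hr hP.1 hP.2 hp0

end Pool.Agent.Helper22.WC
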