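import Pool.Agent.Helper22.WC.Tail

/-!
# WC-D3: the limit law at the worst centre for almost every oval, finite theorem
-/

open MeasureTheory Real Set Filter Topology

set_option autoImplicit false

namespace Pool.Agent.Helper22.WC

open Pool.Agent.Helper22.AE
open Pool.Agent.Helper22.AC (cntc)
open Pool.Agent.Helper22.AM
open Pool.Agent.Helper22.LW (allW)
open Pool.Agent.Helper93.EX (Mx)
open Pool.Agent.Helper60.AD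

/-- the finite theorem, over `law_of_S` and `sup_mean` -/
theorem fin_law_S_of
    (law_of_S : ∀ {H : ℝ → ℝ}, ContDiff ℝ 2 H → Function.Periodic H (2 * π) → (∀ θ, 0 < H θ + deriv (deriv H) θ) →
      (∀ η : ℝ, 0 < η → ∃ (n0 : ℕ) (X₀ : ℝ), 1 ≤ X₀ ∧ ∀ X : ℝ, X₀ ≤ X → ∃ V : ℝ → ℝ, IntegrableOn V (Icc X (2 * X)) ∧
        (∀ R ∈ Icc X (2 * X), ∀ c : ℝ × ℝ, |cntc H c R - area H * R ^ 2 - sqrt R * Mx H (2 ^ n0) R c| ^ 2 ≤ V R) ∧ ∫ R in Icc X (2 * X), V R ≤ η * X ^ 2) →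
      (∀ N : ℕ, ∀ φ : ℝ → ℝ, Continuous φ → (Continuous fun R : ℝ => ⨆ c : ℝ × ℝ, |Mx H N R c|) ∧ (∀ R : ℝ, BddAbove (range fun c : ℝ × ℝ => |Mx H N R c|)) ∧
        ∃ m : ℝ, ∀ ε : ℝ, 0 < ε → ∃ X₀ : ℝ, 1 ≤ X₀ ∧ ∀ X : ℝ, X₀ ≤ X → |X⁻¹ * (∫ R in Icc X (2 * X), φ (⨆ c : ℝ × ℝ, |Mx H N R c|)) - m| ≤ ε) →
      ∀ {φ : ℝ → ℝ}, Continuous φ → HasCompactSupport φ → LimS H φ)
    (sup_mean : ∀ (H : ℝ → ℝ) (N : ℕ) {φ : ℝ → ℝ}, Continuous φ →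
      (Continuous fun R : ℝ => ⨆ c : ℝ × ℝ, |Mx H N R c|) ∧ (∀ R : ℝ, BddAbove (range fun c : ℝ × ℝ => |Mx H N R c|)) ∧
      ∃ m : ℝ, ∀ ε : ℝ, 0 < ε → ∃ X₀ : ℝ, 1 ≤ X₀ ∧ ∀ X : ℝ, X₀ ≤ X → |X⁻¹ * (∫ R in Icc X (2 * X), φ (⨆ c : ℝ × ℝ, |Mx H N R c|)) - m| ≤ ε) :
    ∃ L₀ : ℕ, ∀ {L : ℕ}, L₀ ≤ L → ∀ {H₀ : ℝ → ℝ}, ContDiff ℝ 2 H₀ → Function.Periodic H₀ (2 * π) →
    ∀ᵐ w : (Fin L → ℝ) × (Fin L → ℝ), (∀ θ, 0 < Hw H₀ w θ + deriv (deriv (Hw H₀ w)) θ) →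
      ∀ φ : ℝ → ℝ, Continuous φ → HasCompactSupport φ → LimS (Hw H₀ w) φ := by
  obtain ⟨L₀, h6, h⟩ := fin_of (allW (le_refl 3))
  refine ⟨L₀, ?_⟩
  intro L hL H₀ h0 hp
  apply (vol_ac L).ae_le
  exact h hL h0 hp (fun w => ∀ φ : ℝ → ℝ, Continuous φ → HasCompactSupport φ → LimS (Hw H₀ w) φ)
    (fun h1 h2 h3 h4 h5 h7a h7b h6 b h7 h8 w h9 h10 hN h11 φ hφ hφc => by
      have hsm := Hw_smooth h0 w
      have hper := Hw_per hp w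
      refine law_of_S hsm hper h9 ?_ (fun N φ hφ => sup_mean (Hw H₀ w) N hφ) hφ hφc
      refine tailS_of_dyadic (E := fun R c => cntc (Hw H₀ w) c R - area (Hw H₀ w) * R ^ 2)
        (M := fun n0 R c => sqrt R * Mx (Hw H₀ w) (2 ^ n0) R c) ?_
      intro η hη
      exact Pool.Agent.Helper11.MM.core_tail h0 hp (by norm_num : 1 ≤ 3) h1 h2 h3 h4 h5 h6
        (fun hH _ _ a1 a2 a3 => Pool.Agent.Helper90.AM.dil_low hH a1 a2 a3) b w h9 h10 (by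
          intro N hN n i r hr hnr
          obtain ⟨W, g1, g2, g3, g4⟩ := h11 N hN n i r hr hnr
          exact ⟨W, g1.measurable, g1.continuousOn.integrableOn_compact isCompact_Icc, g2, g3, g4⟩) hη)

end Pool.Agent.Helper22.WC
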