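import Pool.Agent.Helper22.LW.FinLaw
import Pool.Agent.Helper22.WC.Defs

/-!
# WC-D3: the tail at the worst centre
-/

open MeasureTheory Real Set Filter Topology

set_option autoImplicit false

namespace Pool.Agent.Helper22.WC

open Pool.Agent.Helper22.AE
open Pool.Agent.Helper22.AC (cntc)
open Pool.Agent.Helper22.AM
open Pool.Agent.Helper22.LW (allW)
open Pool.Agent.Helper93.EX (Mx)
open Pool.Agent.Helper60.AD

/-- from the sixth moments over dyadic intervals to the second moments over all intervals, at the worst centre -/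
theorem tailS_of_dyadic {E : ℝ → ℝ × ℝ → ℝ} {M : ℕ → ℝ → ℝ × ℝ → ℝ}
    (h : ∀ η : ℝ, 0 < η → ∃ n0 N₂ : ℕ, ∀ N : ℕ, N₂ ≤ N → ∃ V : ℝ → ℝ, Measurable V ∧ IntegrableOn V (Icc ((2 : ℝ) ^ N) (2 * 2 ^ N)) ∧
      (∀ R ∈ Icc ((2 : ℝ) ^ N) (2 * 2 ^ N), ∀ c : ℝ × ℝ, |E R c - M n0 R c| ^ 6 ≤ V R) ∧ (∀ R, 0 ≤ V R) ∧
      ∫ R in Icc ((2 : ℝ) ^ N) (2 * 2 ^ N), V R ≤ η * ((2 : ℝ) ^ N) ^ 4) :
    ∀ η : ℝ, 0 < η → ∃ (n0 : ℕ) (X₀ : ℝ), 1 ≤ X₀ ∧ ∀ X : ℝ, X₀ ≤ X → ∃ V : ℝ → ℝ, IntegrableOn V (Icc X (2 * X)) ∧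
      (∀ R ∈ Icc X (2 * X), ∀ c : ℝ × ℝ, |E R c - M n0 R c| ^ 2 ≤ V R) ∧ ∫ R in Icc X (2 * X), V R ≤ η * X ^ 2 := by
  intro η hη
  obtain ⟨d, hd⟩ : ∃ d : ℝ, d = η / 2 := ⟨_, rfl⟩
  have hd0 : 0 < d := by rw [hd]; positivity
  obtain ⟨n0, N₂, h⟩ := h (d ^ 3 / 17) (by positivity)
  refine ⟨n0, 2 ^ N₂, one_le_pow₀ (by norm_num), fun X hX => ?_⟩
  have hX1 : 1 ≤ X := (one_le_pow₀ (by norm_num : (1 : ℝ) ≤ 2)).trans hX
  have hX0 : 0 < X := by linarith
  obtain ⟨N, hN1, hN2⟩ := exists_nat_pow_near hX1 (by norm_num : (1 : ℝ) < 2)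
  have hN : N₂ ≤ N := by
    by_contra hcon
    have h1 : N + 1 ≤ N₂ := by omega
    have h2 : (2 : ℝ) ^ (N + 1) ≤ 2 ^ N₂ := pow_le_pow_right₀ (by norm_num) h1
    linarith
  obtain ⟨V1, m1, i1, b1, p1, s1⟩ := h N hN
  obtain ⟨V2, m2, i2, b2, p2, s2⟩ := h (N + 1) (by omega)
  obtain ⟨S1, hS1⟩ : ∃ S1 : Set ℝ, S1 = Icc ((2 : ℝ) ^ N) (2 * 2 ^ N) := ⟨_, rfl⟩
  obtain ⟨S2, hS2⟩ : ∃ S2 : Set ℝ, S2 = Icc ((2 : ℝ) ^ (N + 1)) (2 * 2 ^ (N + 1)) := ⟨_, rfl⟩
  have hm1 : MeasurableSet S1 := by rw [hS1]; exact measurableSet_Icc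
  have hm2 : MeasurableSet S2 := by rw [hS2]; exact measurableSet_Icc
  rw [← hS1] at i1 b1 s1
  rw [← hS2] at i2 b2 s2
  have j1 : Integrable (S1.indicator V1) := (integrable_indicator_iff hm1).2 i1
  have j2 : Integrable (S2.indicator V2) := (integrable_indicator_iff hm2).2 i2
  have n1 : ∀ R, 0 ≤ S1.indicator V1 R := fun R => indicator_nonneg (fun R _ => p1 R) R
  have n2 : ∀ R, 0 ≤ S2.indicator V2 R := fun R => indicator_nonneg (fun R _ => p2 R) R
  have hconst : IntegrableOn (fun _ : ℝ => d * X) (Icc X (2 * X)) := continuousOn_const.integrableOn_compact isCompact_Icc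
  have j3 : IntegrableOn (fun R => (S1.indicator V1 R + S2.indicator V2 R) / (d * X) ^ 2) (Icc X (2 * X)) :=
    ((j1.add j2).div_const _).integrableOn
  refine ⟨fun R => d * X + (S1.indicator V1 R + S2.indicator V2 R) / (d * X) ^ 2, hconst.add j3, ?_, ?_⟩
  · intro R hR c
    have ha : 0 < d * X := by positivity
    have hpt : |E R c - M n0 R c| ^ 2 ≤ d * X + |E R c - M n0 R c| ^ 6 / (d * X) ^ 2 := by
      obtain ⟨y, hy⟩ : ∃ y : ℝ, y = |E R c - M n0 R c| := ⟨_, rfl⟩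
      have hy0 : 0 ≤ y := by rw [hy]; exact abs_nonneg _
      rw [← hy]
      by_cases h1 : y ^ 2 ≤ d * X
      · have : 0 ≤ y ^ 6 / (d * X) ^ 2 := by positivity
        linarith
      · push Not at h1
        have h2 : y ^ 2 ≤ y ^ 6 / (d * X) ^ 2 := by
          rw [le_div_iff₀ (by positivity)]
          have h3 : (d * X) ^ 2 ≤ (y ^ 2) ^ 2 := pow_le_pow_left₀ ha.le h1.le 2
          calc y ^ 2 * (d * X) ^ 2 ≤ y ^ 2 * (y ^ 2) ^ 2 := mul_le_mul_of_nonneg_left h3 (by positivity)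
            _ = y ^ 6 := by ring
        linarith
    have h6 : |E R c - M n0 R c| ^ 6 ≤ S1.indicator V1 R + S2.indicator V2 R := by
      by_cases hR1 : R ∈ S1
      · have e : S1.indicator V1 R = V1 R := indicator_of_mem hR1 _
        rw [e]
        have := b1 R hR1 c
        have := n2 R
        linarith
      · have hR2 : R ∈ S2 := by
          rw [hS1, mem_Icc, not_and_or] at hR1
          rw [hS2, mem_Icc]
          have h4 : (2 : ℝ) ^ (N + 1) = 2 * 2 ^ N := by ring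
          rcases hR1 with h5 | h5
          · exact absurd (hN1.trans hR.1) h5
          · push Not at h5
            constructor
            · linarith
            · have := hR.2
              linarith
        have e : S2.indicator V2 R = V2 R := indicator_of_mem hR2 _
        rw [e]
        have := b2 R hR2 c
        have := n1 R
        linarith
    refine hpt.trans ?_
    have h7 := div_le_div_of_nonneg_right h6 (by positivity : (0 : ℝ) ≤ (d * X) ^ 2)
    linarith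
  · rw [integral_add hconst j3, integral_div]
    have e1 : ∫ _ in Icc X (2 * X), d * X = d * X * X := by
      rw [setIntegral_const, Real.volume_real_Icc_of_le (by linarith), smul_eq_mul]
      ring
    have e2 : ∫ R in Icc X (2 * X), (S1.indicator V1 R + S2.indicator V2 R) ≤ d ^ 3 / 17 * ((2 : ℝ) ^ N) ^ 4 + d ^ 3 / 17 * ((2 : ℝ) ^ (N + 1)) ^ 4 := by
      have h1 : ∫ R in Icc X (2 * X), (S1.indicator V1 R + S2.indicator V2 R) ≤ ∫ R, (S1.indicator V1 R + S2.indicator V2 R) :=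
        setIntegral_le_integral (j1.add j2) (Eventually.of_forall fun R => add_nonneg (n1 R) (n2 R))
      rw [integral_add j1 j2, integral_indicator hm1, integral_indicator hm2] at h1
      linarith
    rw [e1]
    have h2 : (2 : ℝ) ^ N ≤ X := hN1
    have h3 : ((2 : ℝ) ^ N) ^ 4 ≤ X ^ 4 := pow_le_pow_left₀ (by positivity) h2 4
    have h4 : ((2 : ℝ) ^ (N + 1)) ^ 4 = 16 * ((2 : ℝ) ^ N) ^ 4 := by ring
    rw [h4] at e2
    have h5 : ∫ R in Icc X (2 * X), (S1.indicator V1 R + S2.indicator V2 R) ≤ d ^ 3 * X ^ 4 := by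
      have h6 : 0 < d ^ 3 := by positivity
      nlinarith
    calc d * X * X + (∫ R in Icc X (2 * X), (S1.indicator V1 R + S2.indicator V2 R)) / (d * X) ^ 2 ≤ d * X * X + (d ^ 3 * X ^ 4) / (d * X) ^ 2 := by gcongr
      _ = η * X ^ 2 := by
        rw [hd]
        field_simp
        ring

end Pool.Agent.Helper22.WC
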